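import Mathlib

/-!
# A gap in the reduced degrees of a normal lattice polytope

The 5-dimensional lattice polytope `x ≥ 0`, `x₁ ≤ 3`, `2x₁ + x₂ + x₃ + x₄ + x₅ ≤ 7` is normal, has
an interior lattice point, has int* degree `3`, and no lattice point has reduced degree `2`.
-/

namespace Pool.Agent.Results.MP_751e6a_co.DegreeGap

open Set Topology

/-- The integer vector `u` viewed as a point of `ℝ^n`. -/
def intVec {n : ℕ} (u : Fin n → ℤ) : Fin n → ℝ := fun i => (u i : ℝ)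

/-- The dilate `N P = {N x : x ∈ P}`. -/
def dil {n : ℕ} (N : ℕ) (P : Set (Fin n → ℝ)) : Set (Fin n → ℝ) :=
  (fun x => (N : ℝ) • x) '' P

/-- `P` is the convex hull of finitely many lattice points. -/
def IsLatticePolytope {n : ℕ} (P : Set (Fin n → ℝ)) : Prop :=
  ∃ V : Finset (Fin n → ℤ), P = convexHull ℝ (intVec '' (V : Set (Fin n → ℤ)))

/-- `P` is normal: for `N ≥ 2`, each lattice point of `N P` is a sum of `N` lattice points
of `P`. -/
def IsNormal {n : ℕ} (P : Set (Fin n → ℝ)) : Prop :=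
  ∀ N : ℕ, 2 ≤ N → ∀ a : Fin n → ℤ, intVec a ∈ dil N P →
    ∃ f : Fin N → (Fin n → ℤ), (∀ i, intVec (f i) ∈ P) ∧ a = ∑ i, f i

/-- The reduced `P`-degree of the lattice point `a` of `N P°`: the least `r ≥ 1` (with `r ≤ N`)
such that `a = b + c` with `b ∈ r P°` and `c ∈ (N - r) P` lattice points. -/
noncomputable def reducedDegree {n : ℕ} (P : Set (Fin n → ℝ)) (N : ℕ) (a : Fin n → ℤ) : ℕ :=
  sInf {r : ℕ | 1 ≤ r ∧ r ≤ N ∧ ∃ b c : Fin n → ℤ, a = b + c ∧
    intVec b ∈ dil r (interior P) ∧ intVec c ∈ dil (N - r) P}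

/-- The set of all reduced `P`-degrees of lattice points of `N P°`, `N ≥ 1`. -/
def attainedDegrees {n : ℕ} (P : Set (Fin n → ℝ)) : Set ℕ :=
  {r | ∃ N : ℕ, 1 ≤ N ∧ ∃ a : Fin n → ℤ, intVec a ∈ dil N (interior P) ∧
    reducedDegree P N a = r}

/-! ### The example -/

/-- The polytope. -/
def PP : Set (Fin 5 → ℝ) :=
  {x | (∀ i, 0 ≤ x i) ∧ x 0 ≤ 3 ∧ 2 * x 0 + x 1 + x 2 + x 3 + x 4 ≤ 7}

/-- Its interior. -/
def PPo : Set (Fin 5 → ℝ) :=
  {x | (∀ i, 0 < x i) ∧ x 0 < 3 ∧ 2 * x 0 + x 1 + x 2 + x 3 + x 4 < 7}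

theorem pos_of_mem_interior {E : Type*} [NormedAddCommGroup E] [NormedSpace ℝ E] (C : Set E)
    (l : E →ₗ[ℝ] ℝ) (k : ℝ) (h : ∀ z ∈ C, k ≤ l z) (e : E) (he : 0 < l e) (z : E)
    (hz : z ∈ interior C) : k < l z := by
  have hcont : Filter.Tendsto (fun t : ℝ => z - t • e) (𝓝 0) (𝓝 (z - (0 : ℝ) • e)) := by
    apply Continuous.tendsto
    fun_prop
  rw [zero_smul, sub_zero] at hcont
  have hev : ∀ᶠ t : ℝ in 𝓝 0, z - t • e ∈ C :=
    hcont.eventually (mem_interior_iff_mem_nhds.1 hz)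
  have hev' : ∀ᶠ t : ℝ in 𝓝[>] 0, z - t • e ∈ C := hev.filter_mono nhdsWithin_le_nhds
  obtain ⟨t, ht, ht0⟩ := (hev'.and self_mem_nhdsWithin).exists
  have := h _ ht
  rw [map_sub, map_smul, smul_eq_mul] at this
  have h2 : 0 < t * l e := mul_pos ht0 he
  linarith

theorem interior_PP : interior PP = PPo := by
  apply Subset.antisymm
  · intro z hz
    refine ⟨fun i => ?_, ?_, ?_⟩
    · refine pos_of_mem_interior PP (LinearMap.proj i : (Fin 5 → ℝ) →ₗ[ℝ] ℝ) 0
        (fun y hy => hy.1 i) (Pi.single i 1) ?_ z hz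
      simp
    · have := pos_of_mem_interior PP
          (-(LinearMap.proj (0 : Fin 5)) : (Fin 5 → ℝ) →ₗ[ℝ] ℝ) (-3) (fun y hy => ?_)
        (Pi.single (0 : Fin 5) (-1 : ℝ)) ?_ z hz
      · simp at this
        exact this
      · have := hy.2.1
        simp only [LinearMap.neg_apply, LinearMap.proj_apply]
        linarith
      · simp
    · have := pos_of_mem_interior PP (-((2 : ℝ) • (LinearMap.proj (0 : Fin 5) : (Fin 5 → ℝ) →ₗ[ℝ] ℝ) +
          LinearMap.proj (1 : Fin 5) + LinearMap.proj (2 : Fin 5) + LinearMap.proj (3 : Fin 5) +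
          LinearMap.proj (4 : Fin 5))) (-7) (fun y hy => ?_)
        (Pi.single (0 : Fin 5) (-1 : ℝ)) ?_ z hz
      · simp only [LinearMap.neg_apply, LinearMap.add_apply, LinearMap.smul_apply,
          LinearMap.proj_apply, smul_eq_mul] at this
        linarith
      · have := hy.2.2
        simp only [LinearMap.neg_apply, LinearMap.add_apply, LinearMap.smul_apply,
          LinearMap.proj_apply, smul_eq_mul]
        linarith
      · simp
  · apply interior_maximal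
    · rintro z ⟨h0, h1, h2⟩
      exact ⟨fun i => (h0 i).le, h1.le, h2.le⟩
    · have : PPo = (⋂ i : Fin 5, {z | 0 < z i}) ∩ ({z | z 0 < 3} ∩
          {z | 2 * z 0 + z 1 + z 2 + z 3 + z 4 < 7}) := by
        ext z
        simp [PPo]
      rw [this]
      apply IsOpen.inter
      · apply isOpen_iInter_of_finite
        intro i
        exact isOpen_lt (by fun_prop) (by fun_prop)
      · apply IsOpen.inter
        · exact isOpen_lt (by fun_prop) (by fun_prop)
        · exact isOpen_lt (by fun_prop) (by fun_prop)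

/-- Lattice points of `N P`. -/
theorem mem_dil_iff (N : ℕ) (a : Fin 5 → ℤ) : intVec a ∈ dil N PP ↔
    (∀ i, 0 ≤ a i) ∧ a 0 ≤ 3 * N ∧ 2 * a 0 + a 1 + a 2 + a 3 + a 4 ≤ 7 * N := by
  constructor
  · rintro ⟨x, ⟨h0, h1, h2⟩, hx⟩
    have hxi : ∀ i, (a i : ℝ) = N * x i := by
      intro i
      have := congrFun hx i
      simp only [intVec, Pi.smul_apply, smul_eq_mul] at this
      exact this.symm
    have hN : (0 : ℝ) ≤ N := Nat.cast_nonneg N
    refine ⟨fun i => ?_, ?_, ?_⟩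
    · have : (0 : ℝ) ≤ a i := by rw [hxi i]; exact mul_nonneg hN (h0 i)
      exact_mod_cast this
    · have : (a 0 : ℝ) ≤ 3 * N := by rw [hxi 0]; nlinarith
      exact_mod_cast this
    · have : 2 * (a 0 : ℝ) + a 1 + a 2 + a 3 + a 4 ≤ 7 * N := by
        rw [hxi 0, hxi 1, hxi 2, hxi 3, hxi 4]; nlinarith
      exact_mod_cast this
  · rintro ⟨h0, h1, h2⟩
    rcases Nat.eq_zero_or_pos N with rfl | hN
    · refine ⟨0, ⟨by simp, by simp, by simp⟩, ?_⟩
      have e0 := h0 0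
      have e1 := h0 1
      have e2 := h0 2
      have e3 := h0 3
      have e4 := h0 4
      have ha : a = 0 := by
        funext i
        fin_cases i <;> simp only [Pi.zero_apply, Fin.zero_eta, Fin.mk_one, Fin.reduceFinMk] <;>
          push_cast at h1 h2 <;> omega
      rw [ha]
      funext i
      simp [intVec]
    · have hN' : (0 : ℝ) < N := by exact_mod_cast hN
      refine ⟨(N : ℝ)⁻¹ • intVec a, ⟨fun i => ?_, ?_, ?_⟩, ?_⟩
      · simp only [Pi.smul_apply, smul_eq_mul, intVec]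
        have : (0 : ℝ) ≤ a i := by exact_mod_cast h0 i
        positivity
      · simp only [Pi.smul_apply, smul_eq_mul, intVec]
        rw [inv_mul_le_iff₀ hN']
        have : (a 0 : ℝ) ≤ 3 * N := by exact_mod_cast h1
        linarith
      · simp only [Pi.smul_apply, smul_eq_mul, intVec]
        have : 2 * (a 0 : ℝ) + a 1 + a 2 + a 3 + a 4 ≤ 7 * N := by exact_mod_cast h2
        have h3 : 2 * ((N : ℝ)⁻¹ * (a 0 : ℝ)) + (N : ℝ)⁻¹ * a 1 + (N : ℝ)⁻¹ * a 2 +
            (N : ℝ)⁻¹ * a 3 + (N : ℝ)⁻¹ * a 4 =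
            (N : ℝ)⁻¹ * (2 * (a 0 : ℝ) + a 1 + a 2 + a 3 + a 4) := by ring
        rw [h3, inv_mul_le_iff₀ hN']
        linarith
      · simp only [smul_smul]
        rw [mul_inv_cancel₀ hN'.ne', one_smul]

/-- Lattice points of `N P°` for `N ≥ 1`. -/
theorem mem_dil_interior_iff (N : ℕ) (hN : 1 ≤ N) (a : Fin 5 → ℤ) :
    intVec a ∈ dil N (interior PP) ↔
    (∀ i, 0 < a i) ∧ a 0 < 3 * N ∧ 2 * a 0 + a 1 + a 2 + a 3 + a 4 < 7 * N := by
  have hN' : (0 : ℝ) < N := by exact_mod_cast hN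
  rw [interior_PP]
  constructor
  · rintro ⟨x, ⟨h0, h1, h2⟩, hx⟩
    have hxi : ∀ i, (a i : ℝ) = N * x i := by
      intro i
      have := congrFun hx i
      simp only [intVec, Pi.smul_apply, smul_eq_mul] at this
      exact this.symm
    refine ⟨fun i => ?_, ?_, ?_⟩
    · have : (0 : ℝ) < a i := by rw [hxi i]; exact mul_pos hN' (h0 i)
      exact_mod_cast this
    · have : (a 0 : ℝ) < 3 * N := by rw [hxi 0]; nlinarith
      exact_mod_cast this
    · have : 2 * (a 0 : ℝ) + a 1 + a 2 + a 3 + a 4 < 7 * N := by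
        rw [hxi 0, hxi 1, hxi 2, hxi 3, hxi 4]; nlinarith
      exact_mod_cast this
  · rintro ⟨h0, h1, h2⟩
    refine ⟨(N : ℝ)⁻¹ • intVec a, ⟨fun i => ?_, ?_, ?_⟩, ?_⟩
    · simp only [Pi.smul_apply, smul_eq_mul, intVec]
      have : (0 : ℝ) < a i := by exact_mod_cast h0 i
      positivity
    · simp only [Pi.smul_apply, smul_eq_mul, intVec]
      rw [inv_mul_lt_iff₀ hN']
      have : (a 0 : ℝ) < 3 * N := by exact_mod_cast h1
      linarith
    · simp only [Pi.smul_apply, smul_eq_mul, intVec]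
      have : 2 * (a 0 : ℝ) + a 1 + a 2 + a 3 + a 4 < 7 * N := by exact_mod_cast h2
      have h3 : 2 * ((N : ℝ)⁻¹ * (a 0 : ℝ)) + (N : ℝ)⁻¹ * a 1 + (N : ℝ)⁻¹ * a 2 +
          (N : ℝ)⁻¹ * a 3 + (N : ℝ)⁻¹ * a 4 =
          (N : ℝ)⁻¹ * (2 * (a 0 : ℝ) + a 1 + a 2 + a 3 + a 4) := by ring
      rw [h3, inv_mul_lt_iff₀ hN']
      linarith
    · simp only [smul_smul]
      rw [mul_inv_cancel₀ hN'.ne', one_smul]

/-- The ten vertices. -/
def verts : Fin 10 → (Fin 5 → ℤ) :=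
  ![![0,0,0,0,0], ![3,0,0,0,0], ![3,1,0,0,0], ![3,0,1,0,0], ![3,0,0,1,0], ![3,0,0,0,1],
    ![0,7,0,0,0], ![0,0,7,0,0], ![0,0,0,7,0], ![0,0,0,0,7]]

theorem isLatticePolytope_PP : IsLatticePolytope PP := by
  classical
  refine ⟨Finset.univ.image verts, ?_⟩
  apply Subset.antisymm
  · rintro x ⟨h0, h1, h2⟩
    have e1 := h0 1
    have e2 := h0 2
    have e3 := h0 3
    have e4 := h0 4
    have hD : 0 < 7 - 2 * x 0 := by linarith
    have hDne : (7 - 2 * x 0) ≠ 0 := hD.ne'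
    set D := 7 - 2 * x 0 with hDdef
    set l := x 0 / 3 with hl
    have hl0 : 0 ≤ l := div_nonneg (h0 0) (by norm_num)
    have hl1 : 0 ≤ 1 - l := by rw [hl]; linarith
    have hx0 : x 0 = 3 * l := by rw [hl]; ring
    set S := x 1 + x 2 + x 3 + x 4 with hS
    have hSD : 0 ≤ 1 - S / D := by
      rw [sub_nonneg, div_le_one hD]
      linarith
    let w : Fin 10 → ℝ := ![(1 - l) * (1 - S / D), l * (1 - S / D), l * (x 1 / D), l * (x 2 / D),
      l * (x 3 / D), l * (x 4 / D), (1 - l) * (x 1 / D), (1 - l) * (x 2 / D),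
      (1 - l) * (x 3 / D), (1 - l) * (x 4 / D)]
    have hw : ∀ i, 0 ≤ w i := by
      intro i
      fin_cases i <;> simp only [w] <;> simp <;> positivity
    have hsum : ∑ i, w i = 1 := by
      simp only [w, Fin.sum_univ_succ, Fin.sum_univ_zero]
      simp
      field_simp
      ring
    have hmem := (convex_convexHull ℝ (intVec '' ((Finset.univ.image verts : Finset _) :
        Set (Fin 5 → ℤ)))).sum_mem (t := Finset.univ) (w := w) (z := fun i => intVec (verts i))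
        (fun i _ => hw i) hsum (fun i _ => subset_convexHull _ _ ⟨verts i, by simp, rfl⟩)
    convert hmem using 1
    have hDl : D = 7 - 6 * l := by rw [hDdef, hx0]; ring
    have key : ∀ t : ℝ, (1 - l) * (t / D) * 7 + l * (t / D) = t := by
      intro t
      have : (1 - l) * (t / D) * 7 + l * (t / D) = (t / D) * (7 - 6 * l) := by ring
      rw [this, ← hDl]
      field_simp
    funext i
    simp only [Finset.sum_apply, Pi.smul_apply, smul_eq_mul, intVec]
    have hS' : (x 1 / D) + (x 2 / D) + (x 3 / D) + (x 4 / D) = S / D := by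
      rw [hS]; ring
    fin_cases i
    · simp only [Fin.sum_univ_succ, Fin.sum_univ_zero, w, verts]
      simp
      linear_combination hx0 - 3 * l * hS'
    · simp only [Fin.sum_univ_succ, Fin.sum_univ_zero, w, verts]
      simp
      linear_combination - key (x 1)
    · simp only [Fin.sum_univ_succ, Fin.sum_univ_zero, w, verts]
      simp
      linear_combination - key (x 2)
    · simp only [Fin.sum_univ_succ, Fin.sum_univ_zero, w, verts]
      simp
      linear_combination - key (x 3)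
    · simp only [Fin.sum_univ_succ, Fin.sum_univ_zero, w, verts]
      simp
      linear_combination - key (x 4)
  · apply convexHull_min
    · rintro x ⟨u, hu, rfl⟩
      simp only [Finset.coe_image, Finset.coe_univ, image_univ, mem_range] at hu
      obtain ⟨k, rfl⟩ := hu
      have : ∀ k, (∀ i, 0 ≤ verts k i) ∧ verts k 0 ≤ 3 ∧
          2 * verts k 0 + verts k 1 + verts k 2 + verts k 3 + verts k 4 ≤ 7 := by decide
      obtain ⟨h0, h1, h2⟩ := this k
      refine ⟨fun i => ?_, ?_, ?_⟩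
      · simp only [intVec]
        exact_mod_cast h0 i
      · simp only [intVec]
        exact_mod_cast h1
      · simp only [intVec]
        exact_mod_cast h2
    · intro x hx y hy α β hα hβ hαβ
      obtain ⟨h0, h1, h2⟩ := hx
      obtain ⟨g0, g1, g2⟩ := hy
      refine ⟨fun i => ?_, ?_, ?_⟩
      · simp only [Pi.add_apply, Pi.smul_apply, smul_eq_mul]
        have := h0 i
        have := g0 i
        positivity
      · simp only [Pi.add_apply, Pi.smul_apply, smul_eq_mul]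
        nlinarith
      · simp only [Pi.add_apply, Pi.smul_apply, smul_eq_mul]
        nlinarith

/-- One step of the decomposition. -/
theorem split_one (N : ℕ) (a : Fin 5 → ℤ) (h0 : ∀ i, 0 ≤ a i) (h1 : a 0 ≤ 3 * (N + 1 : ℕ))
    (h2 : 2 * a 0 + a 1 + a 2 + a 3 + a 4 ≤ 7 * (N + 1 : ℕ)) :
    ∃ b : Fin 5 → ℤ, ((∀ i, 0 ≤ b i) ∧ b 0 ≤ 3 ∧ 2 * b 0 + b 1 + b 2 + b 3 + b 4 ≤ 7) ∧
      ((∀ i, 0 ≤ (a - b) i) ∧ (a - b) 0 ≤ 3 * N ∧
        2 * (a - b) 0 + (a - b) 1 + (a - b) 2 + (a - b) 3 + (a - b) 4 ≤ 7 * N) := by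
  have e0 := h0 0
  have e1 := h0 1
  have e2 := h0 2
  have e3 := h0 3
  have e4 := h0 4
  push_cast at h1 h2
  obtain ⟨b0, hb0, hb0'⟩ : ∃ b0 : ℤ, (b0 = 3 ∨ b0 = a 0) ∧ (0 ≤ b0 ∧ b0 ≤ 3 ∧ b0 ≤ a 0) := by
    rcases le_total 3 (a 0) with h | h
    · exact ⟨3, Or.inl rfl, by omega⟩
    · exact ⟨a 0, Or.inr rfl, by omega⟩
  obtain ⟨b1, hb1⟩ : ∃ b1 : ℤ, 0 ≤ b1 ∧ b1 ≤ a 1 ∧ b1 ≤ 7 - 2 * b0 ∧
      (b1 = a 1 ∨ b1 = 7 - 2 * b0) := by
    rcases le_total (a 1) (7 - 2 * b0) with h | h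
    · exact ⟨a 1, by omega⟩
    · exact ⟨7 - 2 * b0, by omega⟩
  obtain ⟨b2, hb2⟩ : ∃ b2 : ℤ, 0 ≤ b2 ∧ b2 ≤ a 2 ∧ b2 ≤ 7 - 2 * b0 - b1 ∧
      (b2 = a 2 ∨ b2 = 7 - 2 * b0 - b1) := by
    rcases le_total (a 2) (7 - 2 * b0 - b1) with h | h
    · exact ⟨a 2, by omega⟩
    · exact ⟨7 - 2 * b0 - b1, by omega⟩
  obtain ⟨b3, hb3⟩ : ∃ b3 : ℤ, 0 ≤ b3 ∧ b3 ≤ a 3 ∧ b3 ≤ 7 - 2 * b0 - b1 - b2 ∧
      (b3 = a 3 ∨ b3 = 7 - 2 * b0 - b1 - b2) := by
    rcases le_total (a 3) (7 - 2 * b0 - b1 - b2) with h | h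
    · exact ⟨a 3, by omega⟩
    · exact ⟨7 - 2 * b0 - b1 - b2, by omega⟩
  obtain ⟨b4, hb4⟩ : ∃ b4 : ℤ, 0 ≤ b4 ∧ b4 ≤ a 4 ∧ b4 ≤ 7 - 2 * b0 - b1 - b2 - b3 ∧
      (b4 = a 4 ∨ b4 = 7 - 2 * b0 - b1 - b2 - b3) := by
    rcases le_total (a 4) (7 - 2 * b0 - b1 - b2 - b3) with h | h
    · exact ⟨a 4, by omega⟩
    · exact ⟨7 - 2 * b0 - b1 - b2 - b3, by omega⟩
  refine ⟨![b0, b1, b2, b3, b4], ⟨?_, ?_, ?_⟩, ?_, ?_, ?_⟩
  · intro i
    fin_cases i <;> simp <;> omega
  · simp; omega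
  · simp; omega
  · intro i
    fin_cases i <;> simp <;> omega
  · simp; omega
  · simp; omega

theorem sum_of_points (N : ℕ) : ∀ a : Fin 5 → ℤ,
    ((∀ i, 0 ≤ a i) ∧ a 0 ≤ 3 * N ∧ 2 * a 0 + a 1 + a 2 + a 3 + a 4 ≤ 7 * N) →
    ∃ f : Fin N → (Fin 5 → ℤ), (∀ i, intVec (f i) ∈ PP) ∧ a = ∑ i, f i := by
  induction N with
  | zero =>
    rintro a ⟨h0, h1, h2⟩
    refine ⟨fun i => i.elim0, fun i => i.elim0, ?_⟩
    have e0 := h0 0
    have e1 := h0 1
    have e2 := h0 2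
    have e3 := h0 3
    have e4 := h0 4
    rw [Fin.sum_univ_zero]
    funext i
    fin_cases i <;> simp only [Pi.zero_apply, Fin.zero_eta, Fin.mk_one, Fin.reduceFinMk] <;>
      push_cast at h1 h2 <;> omega
  | succ N ih =>
    rintro a ⟨h0, h1, h2⟩
    obtain ⟨b, ⟨hb0, hb1, hb2⟩, hab⟩ := split_one N a h0 h1 h2
    obtain ⟨f, hf, hsum⟩ := ih (a - b) hab
    refine ⟨Fin.cons b f, ?_, ?_⟩
    · intro i
      refine Fin.cases ?_ (fun j => ?_) i
      · rw [Fin.cons_zero]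
        refine ⟨fun i => ?_, ?_, ?_⟩
        · simp only [intVec]
          exact_mod_cast hb0 i
        · simp only [intVec]
          exact_mod_cast hb1
        · simp only [intVec]
          exact_mod_cast hb2
      · rw [Fin.cons_succ]
        exact hf j
    · rw [Fin.sum_univ_succ, Fin.cons_zero]
      simp only [Fin.cons_succ]
      rw [← hsum]
      abel

theorem isNormal_PP : IsNormal PP := by
  intro N _ a ha
  exact sum_of_points N a ((mem_dil_iff N a).1 ha)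

/-- If `a₁ ≤ 3N - 2` the reduced degree is `1`. -/
theorem reducedDegree_one (N : ℕ) (hN : 1 ≤ N) (a : Fin 5 → ℤ)
    (ha : intVec a ∈ dil N (interior PP)) (h : a 0 ≤ 3 * N - 2) : reducedDegree PP N a = 1 := by
  rw [mem_dil_interior_iff N hN] at ha
  obtain ⟨h0, h1, h2⟩ := ha
  have e0 := h0 0
  have e1 := h0 1
  have e2 := h0 2
  have e3 := h0 3
  have e4 := h0 4
  have hmem : 1 ∈ {r : ℕ | 1 ≤ r ∧ r ≤ N ∧ ∃ b c : Fin 5 → ℤ, a = b + c ∧
      intVec b ∈ dil r (interior PP) ∧ intVec c ∈ dil (N - r) PP} := by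
    refine ⟨le_refl _, hN, fun _ => 1, a - fun _ => 1, by abel, ?_, ?_⟩
    · rw [mem_dil_interior_iff 1 (le_refl _)]
      norm_num
    · rw [mem_dil_iff]
      simp only [Pi.sub_apply]
      refine ⟨fun i => by have := h0 i; omega, ?_, ?_⟩
      · omega
      · omega
  apply le_antisymm
  · exact Nat.sInf_le hmem
  · exact (Nat.sInf_mem ⟨1, hmem⟩).1

/-- If `a₁ = 3N - 1` the reduced degree is `3`. -/
theorem reducedDegree_three (N : ℕ) (hN : 1 ≤ N) (a : Fin 5 → ℤ)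
    (ha : intVec a ∈ dil N (interior PP)) (h : a 0 = 3 * N - 1) : reducedDegree PP N a = 3 := by
  rw [mem_dil_interior_iff N hN] at ha
  obtain ⟨h0, h1, h2⟩ := ha
  have e0 := h0 0
  have e1 := h0 1
  have e2 := h0 2
  have e3 := h0 3
  have e4 := h0 4
  have hN3 : 3 ≤ N := by omega
  have hmem : 3 ∈ {r : ℕ | 1 ≤ r ∧ r ≤ N ∧ ∃ b c : Fin 5 → ℤ, a = b + c ∧
      intVec b ∈ dil r (interior PP) ∧ intVec c ∈ dil (N - r) PP} := by
    refine ⟨by norm_num, hN3, ![8, 1, 1, 1, 1], a - ![8, 1, 1, 1, 1], by abel, ?_, ?_⟩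
    · rw [mem_dil_interior_iff 3 (by norm_num)]
      refine ⟨?_, ?_, ?_⟩
      · decide
      · decide
      · decide
    · rw [mem_dil_iff]
      refine ⟨fun i => ?_, ?_, ?_⟩
      · fin_cases i <;> simp <;> omega
      · simp; omega
      · simp; omega
  apply le_antisymm
  · exact Nat.sInf_le hmem
  · obtain ⟨hr1, hrN, b, c, habc, hb, hc⟩ := Nat.sInf_mem ⟨3, hmem⟩
    change 3 ≤ sInf _
    set r := sInf {r : ℕ | 1 ≤ r ∧ r ≤ N ∧ ∃ b c : Fin 5 → ℤ, a = b + c ∧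
      intVec b ∈ dil r (interior PP) ∧ intVec c ∈ dil (N - r) PP} with hr
    rw [mem_dil_interior_iff r hr1] at hb
    rw [mem_dil_iff] at hc
    obtain ⟨hb0, hb1, hb2⟩ := hb
    obtain ⟨hc0, hc1, hc2⟩ := hc
    have f1 := hb0 1
    have f2 := hb0 2
    have f3 := hb0 3
    have f4 := hb0 4
    have g0 : a 0 = b 0 + c 0 := by rw [habc]; rfl
    omega

theorem degree_cases (N : ℕ) (hN : 1 ≤ N) (a : Fin 5 → ℤ)
    (ha : intVec a ∈ dil N (interior PP)) :
    reducedDegree PP N a = 1 ∨ reducedDegree PP N a = 3 := by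
  have ha' := ha
  rw [mem_dil_interior_iff N hN] at ha'
  rcases (show a 0 ≤ 3 * N - 2 ∨ a 0 = 3 * N - 1 by omega) with h | h
  · exact Or.inl (reducedDegree_one N hN a ha h)
  · exact Or.inr (reducedDegree_three N hN a ha h)

/-- A normal lattice polytope of dimension `5` with an interior lattice point, of int* degree `3`,
for which no lattice point of any `N P°` has reduced degree `2`. -/
theorem result : ∃ P : Set (Fin 5 → ℝ), IsLatticePolytope P ∧ IsNormal P ∧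
    (∃ z : Fin 5 → ℤ, intVec z ∈ interior P) ∧
    IsGreatest (attainedDegrees P) 3 ∧ 2 ∉ attainedDegrees P := by
  refine ⟨PP, isLatticePolytope_PP, isNormal_PP, ⟨fun _ => 1, ?_⟩, ⟨?_, ?_⟩, ?_⟩
  · rw [interior_PP]
    refine ⟨fun i => by simp [intVec], by simp [intVec], by norm_num [intVec]⟩
  · have hmem : intVec (![8, 1, 1, 1, 1] : Fin 5 → ℤ) ∈ dil 3 (interior PP) := by
      rw [mem_dil_interior_iff 3 (by norm_num)]
      refine ⟨?_, ?_, ?_⟩
      · decide
      · decide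
      · decide
    exact ⟨3, by norm_num, _, hmem, reducedDegree_three 3 (by norm_num) _ hmem (by decide)⟩
  · rintro r ⟨N, hN, a, ha, rfl⟩
    rcases degree_cases N hN a ha with h | h <;> rw [h] <;> norm_num
  · rintro ⟨N, hN, a, ha, h2⟩
    rcases degree_cases N hN a ha with h | h <;> (rw [h] at h2; norm_num at h2)

end Pool.Agent.Results.MP_751e6a_co.DegreeGap
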